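import Mathlib

/-!
# `B_h` sets over `ℤ` (signed sumsets) in finite abelian groups
-/

set_option autoImplicit false

namespace Pool.Agent.TH560.SB

/-- `A` is a `B_h` set over `ℤ`: different integer coefficient vectors with `ℓ¹`-norm `h` give
different elements. -/
def IsB {G : Type*} [AddCommGroup G] (A : Finset G) (h : ℕ) : Prop :=
  ∀ f g : A → ℤ, ∑ a, (f a).natAbs = h → ∑ a, (g a).natAbs = h →
    ∑ a, f a • (a : G) = ∑ a, g a • (a : G) → f = g

/-- `σ_±(ℤ_n, h)`: the maximal size of a `B_h` set over `ℤ` in `ℤ_n`. -/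
noncomputable def sig (n h : ℕ) : ℕ :=
  sSup {k : ℕ | ∃ A : Finset (ZMod n), A.card = k ∧ IsB A h}

/-- the same for families -/
def FB {G : Type*} [AddCommGroup G] {ι : Type*} [Fintype ι] (a : ι → G) (h : ℕ) : Prop :=
  ∀ f g : ι → ℤ, ∑ i, (f i).natAbs = h → ∑ i, (g i).natAbs = h →
    ∑ i, f i • a i = ∑ i, g i • a i → f = g

lemma sum_ext {ι κ M : Type*} [Fintype ι] [Fintype κ] [AddCommMonoid M] (e : κ → ι)
    (he : Function.Injective e) (F : ℤ → ι → M) (hF : ∀ i, F 0 i = 0) (f : κ → ℤ) :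
    ∑ i, F (Function.extend e f 0 i) i = ∑ k, F (f k) (e k) := by
  symm
  apply Finset.sum_of_injOn e he.injOn (fun _ _ => Finset.mem_coe.mpr (Finset.mem_univ _))
  · intro i _ hi
    rw [Function.extend_apply']
    · exact hF i
    · rintro ⟨k, rfl⟩
      exact hi ⟨k, by simp, rfl⟩
  · intro k _
    rw [he.extend_apply]

lemma FB.comp {G : Type*} [AddCommGroup G] {ι κ : Type*} [Fintype ι] [Fintype κ] {a : ι → G}
    {h : ℕ} (ha : FB a h) (e : κ → ι) (he : Function.Injective e) : FB (fun k => a (e k)) h := by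
  intro f g hf hg hfg
  have h1 := ha (Function.extend e f 0) (Function.extend e g 0)
    ((sum_ext e he (fun x _ => x.natAbs) (fun _ => rfl) f).trans hf)
    ((sum_ext e he (fun x _ => x.natAbs) (fun _ => rfl) g).trans hg)
    (by
      rw [sum_ext e he (fun x i => x • a i) (fun i => zero_smul _ _) f,
        sum_ext e he (fun x i => x • a i) (fun i => zero_smul _ _) g]
      exact hfg)
  funext k
  have := congrFun h1 (e k)
  rwa [he.extend_apply, he.extend_apply] at this

lemma split {ι : Type*} [DecidableEq ι] (v : ι → ℤ) (s : Finset ι) : ∀ P : ℕ,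
    P ≤ ∑ j ∈ s, (v j).natAbs →
    ∃ p : ι → ℤ, (∀ j, (p j).natAbs + (p j - v j).natAbs = (v j).natAbs) ∧
      ∑ j ∈ s, (p j).natAbs = P := by
  induction s using Finset.induction_on with
  | empty =>
    intro P hP
    refine ⟨fun _ => 0, fun j => by simp, ?_⟩
    simp at hP ⊢
    exact hP.symm
  | insert a s ha ih =>
    intro P hP
    rw [Finset.sum_insert ha] at hP
    obtain ⟨p, c, hp, hc, hs⟩ : ∃ (p : ι → ℤ) (c : ℤ),
        (∀ j, (p j).natAbs + (p j - v j).natAbs = (v j).natAbs) ∧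
        c.natAbs + (c - v a).natAbs = (v a).natAbs ∧
        c.natAbs + ∑ j ∈ s, (p j).natAbs = P := by
      by_cases h : P ≤ ∑ j ∈ s, (v j).natAbs
      · obtain ⟨p, hp, hs⟩ := ih P h
        exact ⟨p, 0, hp, by simp, by simpa using hs⟩
      · obtain ⟨p, hp, hs⟩ := ih _ le_rfl
        obtain ⟨R, hR⟩ : ∃ R : ℕ, P = R + ∑ j ∈ s, (v j).natAbs :=
          ⟨P - ∑ j ∈ s, (v j).natAbs, by omega⟩
        have hR2 : R ≤ (v a).natAbs := by omega
        rcases le_total 0 (v a) with h0 | h0
        · exact ⟨p, R, hp, by omega, by omega⟩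
        · exact ⟨p, -R, hp, by omega, by omega⟩
    refine ⟨Function.update p a c, ?_, ?_⟩
    · intro j
      by_cases hj : j = a
      · subst hj
        rw [Function.update_self]
        exact hc
      · rw [Function.update_of_ne hj]
        exact hp j
    · rw [Finset.sum_insert ha, Function.update_self, ← hs]
      congr 1
      apply Finset.sum_congr rfl
      intro j hj
      rw [Function.update_of_ne]
      rintro rfl
      exact ha hj

lemma exists_diff {ι : Type*} [Fintype ι] (hι : 2 ≤ Fintype.card ι) (v : ι → ℤ)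
    {h : ℕ} (he : (∑ i, (v i).natAbs) % 2 = 0) (hle : ∑ i, (v i).natAbs ≤ 2 * h) :
    ∃ f g : ι → ℤ, ∑ i, (f i).natAbs = h ∧ ∑ i, (g i).natAbs = h ∧ ∀ i, f i - g i = v i := by
  classical
  obtain ⟨k, hk⟩ : ∃ k, ∑ i, (v i).natAbs = 2 * k := ⟨(∑ i, (v i).natAbs) / 2, by omega⟩
  obtain ⟨i, hi⟩ : ∃ i, (v i).natAbs ≤ k := by
    by_contra hcon
    push Not at hcon
    obtain ⟨i, j, hij⟩ := Fintype.one_lt_card_iff.mp (show 1 < Fintype.card ι by omega)
    have h1 := Finset.add_sum_erase Finset.univ (fun i => (v i).natAbs) (Finset.mem_univ i)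
    have h2 : (v j).natAbs ≤ ∑ x ∈ Finset.univ.erase i, (v x).natAbs :=
      Finset.single_le_sum (f := fun i => (v i).natAbs) (fun _ _ => Nat.zero_le _)
        (Finset.mem_erase.mpr ⟨hij.symm, Finset.mem_univ j⟩)
    have h3 := hcon i
    have h4 := hcon j
    omega
  have h1 := Finset.add_sum_erase Finset.univ (fun i => (v i).natAbs) (Finset.mem_univ i)
  obtain ⟨p, hp, hs⟩ := split v (Finset.univ.erase i) (k - (v i).natAbs) (by omega)
  obtain ⟨c, hc1, hc2⟩ : ∃ c : ℤ, c.natAbs = (v i).natAbs + (h - k) ∧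
      (c - v i).natAbs = h - k := by
    rcases le_total 0 (v i) with h0 | h0
    · exact ⟨v i + ((h - k : ℕ) : ℤ), by omega, by omega⟩
    · exact ⟨v i - ((h - k : ℕ) : ℤ), by omega, by omega⟩
  have h2 : ∑ j ∈ Finset.univ.erase i, (p j).natAbs + ∑ j ∈ Finset.univ.erase i,
      (p j - v j).natAbs = ∑ j ∈ Finset.univ.erase i, (v j).natAbs := by
    rw [← Finset.sum_add_distrib]
    exact Finset.sum_congr rfl fun j _ => hp j
  refine ⟨Function.update p i c, fun j => Function.update p i c j - v j, ?_, ?_,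
    fun j => by ring⟩
  · rw [← Finset.add_sum_erase Finset.univ _ (Finset.mem_univ i), Function.update_self]
    have h3 : ∑ x ∈ Finset.univ.erase i, (Function.update p i c x).natAbs =
        ∑ x ∈ Finset.univ.erase i, (p x).natAbs := by
      apply Finset.sum_congr rfl
      intro j hj
      rw [Function.update_of_ne (Finset.ne_of_mem_erase hj)]
    rw [h3, hs]
    omega
  · rw [← Finset.add_sum_erase Finset.univ _ (Finset.mem_univ i)]
    show (Function.update p i c i - v i).natAbs +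
      ∑ x ∈ Finset.univ.erase i, (Function.update p i c x - v x).natAbs = h
    rw [Function.update_self]
    have h3 : ∑ x ∈ Finset.univ.erase i, (Function.update p i c x - v x).natAbs =
        ∑ x ∈ Finset.univ.erase i, (p x - v x).natAbs := by
      apply Finset.sum_congr rfl
      intro j hj
      rw [Function.update_of_ne (Finset.ne_of_mem_erase hj)]
    rw [h3]
    omega

lemma FB.even {G : Type*} [AddCommGroup G] {ι : Type*} [Fintype ι] (hι : 2 ≤ Fintype.card ι)
    {a : ι → G} {h : ℕ} (ha : FB a h) (v : ι → ℤ) (he : (∑ i, (v i).natAbs) % 2 = 0)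
    (hle : ∑ i, (v i).natAbs ≤ 2 * h) (h0 : ∑ i, v i • a i = 0) : v = 0 := by
  obtain ⟨f, g, hf, hg, hv⟩ := exists_diff hι v he hle
  have hfg : f = g := by
    apply ha f g hf hg
    rw [← sub_eq_zero, ← Finset.sum_sub_distrib, ← h0]
    apply Finset.sum_congr rfl
    intro i _
    rw [← sub_smul, hv]
  funext i
  rw [← hv i, hfg]
  simp

lemma par1 (z : ℤ) : ((z.natAbs : ℕ) : ZMod 2) = (z : ZMod 2) := by
  rcases Int.natAbs_eq z with h | h
  · conv_rhs => rw [h, Int.cast_natCast]
  · conv_rhs => rw [h, Int.cast_neg, CharTwo.neg_eq, Int.cast_natCast]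

lemma par {ι : Type*} [Fintype ι] (x : ι → ℤ) :
    ((∑ i, (x i).natAbs : ℕ) : ZMod 2) = ∑ i, ((x i : ℤ) : ZMod 2) := by
  rw [Nat.cast_sum]
  exact Finset.sum_congr rfl fun i _ => par1 _

lemma par_sub {ι : Type*} [Fintype ι] (f g : ι → ℤ)
    (h : (∑ i, (f i).natAbs) % 2 = (∑ i, (g i).natAbs) % 2) :
    (∑ i, (f i - g i).natAbs) % 2 = 0 := by
  have h1 : ((∑ i, (f i).natAbs : ℕ) : ZMod 2) = ((∑ i, (g i).natAbs : ℕ) : ZMod 2) :=
    (ZMod.natCast_eq_natCast_iff' _ _ 2).mpr h
  rw [par, par] at h1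
  have h2 : ((∑ i, (f i - g i).natAbs : ℕ) : ZMod 2) = ((0 : ℕ) : ZMod 2) := by
    rw [par]
    push_cast
    rw [Finset.sum_sub_distrib, h1, sub_self]
  exact (ZMod.natCast_eq_natCast_iff' _ _ 2).mp h2

/-- the general lower bound for the order of the group -/
theorem general {G : Type*} [AddCommGroup G] [Finite G] {ι : Type*} [Fintype ι]
    (hι : 2 ≤ Fintype.card ι) {a : ι → G} {h : ℕ} (ha : FB a h) :
    Nat.card {f : ι → ℤ // ∑ i, (f i).natAbs ≤ h ∧ (∑ i, (f i).natAbs) % 2 = h % 2} ≤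
      Nat.card G := by
  apply Nat.card_le_card_of_injective (fun f => ∑ i, f.1 i • a i)
  rintro ⟨f, hf1, hf2⟩ ⟨g, hg1, hg2⟩ hfg
  simp only at hfg
  have h1 : (fun i => f i - g i) = 0 := by
    apply ha.even hι
    · exact par_sub f g (hf2.trans hg2.symm)
    · calc ∑ i, (f i - g i).natAbs ≤ ∑ i, ((f i).natAbs + (g i).natAbs) :=
            Finset.sum_le_sum fun i _ => Int.natAbs_sub_le _ _
        _ = ∑ i, (f i).natAbs + ∑ i, (g i).natAbs := Finset.sum_add_distrib
        _ ≤ 2 * h := by omega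
    · simp only [sub_smul, Finset.sum_sub_distrib]
      rw [hfg, sub_self]
  apply Subtype.ext
  funext i
  have := congrFun h1 i
  simp only [Pi.zero_apply] at this
  simp only
  omega

end Pool.Agent.TH560.SB
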