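import Pool.Agent.TH560.SB.Two

/-!
# `B_h` sets over `ℤ` in cyclic groups: constructions, size three, the values of `σ`
-/

set_option autoImplicit false

namespace Pool.Agent.TH560.SB

lemma constr {n h : ℕ} (a b : ℤ)
    (H : ∀ u v : ℤ, u.natAbs ≤ h → v.natAbs ≤ h → (n : ℤ) ∣ u * (a + b) + v * (a - b) →
      u = 0 ∧ v = 0) : UV (a : ZMod n) (b : ZMod n) h := by
  intro u v hu hv h0
  apply H u v hu hv
  rw [← ZMod.intCast_zmod_eq_zero_iff_dvd]
  push_cast
  rw [zsmul_eq_mul, zsmul_eq_mul] at h0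
  exact h0

lemma core {n h c : ℕ} (hc : h < c) (hb : h + h * c < n) {u v : ℤ} (hu : u.natAbs ≤ h)
    (hv : v.natAbs ≤ h) (hd : (n : ℤ) ∣ u + v * c) : u = 0 ∧ v = 0 := by
  have h1 : (v * (c : ℤ)).natAbs = v.natAbs * c := by
    rw [Int.natAbs_mul, Int.natAbs_natCast]
  have h2 : v.natAbs * c ≤ h * c := Nat.mul_le_mul_right c hv
  have h3 : u + v * (c : ℤ) = 0 := by
    apply Int.eq_zero_of_dvd_of_natAbs_lt_natAbs hd
    rw [Int.natAbs_natCast]
    omega
  by_cases h4 : v = 0
  · subst h4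
    simp at h3
    exact ⟨h3, rfl⟩
  · exfalso
    have h5 : 1 ≤ v.natAbs := by omega
    have h6 : 1 * c ≤ v.natAbs * c := Nat.mul_le_mul_right c h5
    omega

/-- the condition for `σ ≥ 2` -/
def Thr (n h : ℕ) : Prop := (h + 1) ^ 2 ≤ n ∧ (Even n → Odd h → (h + 1) * (h + 2) ≤ n)

lemma exists_uv {n h : ℕ} (hT : Thr n h) : ∃ a b : ZMod n, UV a b h := by
  obtain ⟨h1, h2⟩ := hT
  have h1' : h + h * (h + 1) < n := by nlinarith
  rcases Nat.even_or_odd n with hn | hn
  · rcases Nat.even_or_odd h with hh | hh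
    · obtain ⟨t, ht⟩ := hh
      refine ⟨((t + 1 : ℤ) : ZMod n), ((-t : ℤ) : ZMod n), constr _ _ ?_⟩
      intro u v hu hv hd
      apply core (c := h + 1) (by omega) h1' hu hv
      have e : u * ((t : ℤ) + 1 + -t) + v * ((t : ℤ) + 1 - -t) = u + v * ((h + 1 : ℕ) : ℤ) := by
        rw [ht]
        push_cast
        ring
      rwa [e] at hd
    · have h3 := h2 hn hh
      obtain ⟨t, ht⟩ := hh
      refine ⟨((t + 2 : ℤ) : ZMod n), ((-(t + 1) : ℤ) : ZMod n), constr _ _ ?_⟩
      intro u v hu hv hd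
      apply core (c := h + 2) (by omega) (show h + h * (h + 2) < n by nlinarith) hu hv
      have e : u * ((t : ℤ) + 2 + -(t + 1)) + v * ((t : ℤ) + 2 - -(t + 1)) =
          u + v * ((h + 2 : ℕ) : ℤ) := by
        rw [ht]
        push_cast
        ring
      rwa [e] at hd
  · obtain ⟨k, hk⟩ := hn
    refine ⟨((h + 2 : ℤ) : ZMod n), ((-h : ℤ) : ZMod n), constr _ _ ?_⟩
    intro u v hu hv hd
    apply core (c := h + 1) (by omega) h1' hu hv
    have e : u + v * ((h + 1 : ℕ) : ℤ) = (n : ℤ) * (u + v * ((h + 1 : ℕ) : ℤ)) -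
        (k : ℤ) * (u * ((h : ℤ) + 2 + -h) + v * ((h : ℤ) + 2 - -h)) := by
      rw [hk]
      push_cast
      ring
    rw [e]
    exact dvd_sub (dvd_mul_right _ _) (hd.mul_left _)

lemma sq_sum (m : ℕ) : 6 * ∑ i : Fin m, (m - (i : ℕ)) * (m - (i : ℕ)) =
    m * (m + 1) * (2 * m + 1) := by
  rw [Fin.sum_univ_eq_sum_range (fun i => (m - i) * (m - i)) m]
  induction m with
  | zero => simp
  | succ m ih =>
    rw [Finset.sum_range_succ']
    have e : ∑ k ∈ Finset.range m, (m + 1 - (k + 1)) * (m + 1 - (k + 1)) =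
        ∑ k ∈ Finset.range m, (m - k) * (m - k) := by
      apply Finset.sum_congr rfl
      intro k _
      rw [Nat.add_sub_add_right]
    rw [e, mul_add, ih, Nat.sub_zero]
    ring

lemma triple {G : Type*} [AddCommGroup G] [Finite G] {a : Fin 3 → G} {h : ℕ} (ha : FB a h) :
    (h + 1) * (2 * (h + 1) ^ 2 + 1) ≤ 3 * Nat.card G := by
  have h0 := general (by simp) ha
  have hmem : ∀ x y z : ℤ, x.natAbs + y.natAbs + z.natAbs ≤ h →
      (x.natAbs + y.natAbs + z.natAbs) % 2 = h % 2 →
      ∑ i, ((![x, y, z] : Fin 3 → ℤ) i).natAbs ≤ h ∧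
        (∑ i, ((![x, y, z] : Fin 3 → ℤ) i).natAbs) % 2 = h % 2 := by
    intro x y z h1 h2
    rw [Fin.sum_univ_three]
    simp only [Matrix.cons_val_zero, Matrix.cons_val_one, Matrix.cons_val]
    exact ⟨h1, h2⟩
  have : Finite {f : Fin 3 → ℤ // ∑ i, (f i).natAbs ≤ h ∧ (∑ i, (f i).natAbs) % 2 = h % 2} := by
    apply Finite.of_injective
      (fun f : {f : Fin 3 → ℤ // ∑ i, (f i).natAbs ≤ h ∧ (∑ i, (f i).natAbs) % 2 = h % 2} =>
        ∑ i, f.1 i • a i)
    rintro ⟨f, hf1, hf2⟩ ⟨g, hg1, hg2⟩ hfg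
    simp only at hfg
    have h1 : (fun i => f i - g i) = 0 := by
      apply ha.even (by simp)
      · exact par_sub f g (hf2.trans hg2.symm)
      · calc ∑ i, (f i - g i).natAbs ≤ ∑ i, ((f i).natAbs + (g i).natAbs) :=
              Finset.sum_le_sum fun i _ => Int.natAbs_sub_le _ _
          _ = ∑ i, (f i).natAbs + ∑ i, (g i).natAbs := Finset.sum_add_distrib
          _ ≤ 2 * h := by omega
      · simp only [sub_smul, Finset.sum_sub_distrib]
        rw [hfg, sub_self]
    apply Subtype.ext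
    funext i
    have := congrFun h1 i
    simp only [Pi.zero_apply] at this
    simp only
    omega
  have h1 : Nat.card ((Σ i : Fin (h + 1), Fin (h + 1 - i) × Fin (h + 1 - i)) ⊕
      (Σ i : Fin h, Fin (h - i) × Fin (h - i))) ≤
      Nat.card {f : Fin 3 → ℤ // ∑ i, (f i).natAbs ≤ h ∧ (∑ i, (f i).natAbs) % 2 = h % 2} := by
    apply Nat.card_le_card_of_injective (fun w => match w with
      | Sum.inl ⟨i, u, v⟩ => ⟨![(u : ℤ) + v - (h - i), (u : ℤ) - v, (i : ℤ)],
          hmem _ _ _ (by omega) (by omega)⟩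
      | Sum.inr ⟨i, u, v⟩ => ⟨![(u : ℤ) + v - (h - 1 - i), (u : ℤ) - v, -((i : ℤ) + 1)],
          hmem _ _ _ (by omega) (by omega)⟩)
    rintro (⟨i, u, v⟩ | ⟨i, u, v⟩) (⟨i', u', v'⟩ | ⟨i', u', v'⟩) hfg
    · have e0 := congrFun (Subtype.ext_iff.mp hfg) 0
      have e1 := congrFun (Subtype.ext_iff.mp hfg) 1
      have e2 := congrFun (Subtype.ext_iff.mp hfg) 2
      simp only [Matrix.cons_val_zero, Matrix.cons_val_one, Matrix.cons_val] at e0 e1 e2
      obtain rfl : i = i' := Fin.ext (by omega)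
      obtain rfl : u = u' := Fin.ext (by omega)
      obtain rfl : v = v' := Fin.ext (by omega)
      rfl
    · exfalso
      have e2 := congrFun (Subtype.ext_iff.mp hfg) 2
      simp only [Matrix.cons_val] at e2
      omega
    · exfalso
      have e2 := congrFun (Subtype.ext_iff.mp hfg) 2
      simp only [Matrix.cons_val] at e2
      omega
    · have e0 := congrFun (Subtype.ext_iff.mp hfg) 0
      have e1 := congrFun (Subtype.ext_iff.mp hfg) 1
      have e2 := congrFun (Subtype.ext_iff.mp hfg) 2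
      simp only [Matrix.cons_val_zero, Matrix.cons_val_one, Matrix.cons_val] at e0 e1 e2
      obtain rfl : i = i' := Fin.ext (by omega)
      obtain rfl : u = u' := Fin.ext (by omega)
      obtain rfl : v = v' := Fin.ext (by omega)
      rfl
  rw [Nat.card_eq_fintype_card, Fintype.card_sum, Fintype.card_sigma, Fintype.card_sigma] at h1
  simp only [Fintype.card_prod, Fintype.card_fin] at h1
  have h2 := sq_sum (h + 1)
  have h3 := sq_sum h
  nlinarith

variable {n h : ℕ} [NeZero n]

lemma bdd : BddAbove {k : ℕ | ∃ A : Finset (ZMod n), A.card = k ∧ IsB A h} :=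
  ⟨Fintype.card (ZMod n), by
    rintro k ⟨A, rfl, -⟩
    exact Finset.card_le_univ A⟩

lemma le_sig {A : Finset (ZMod n)} (hA : IsB A h) : A.card ≤ sig n h :=
  le_csSup bdd ⟨A, rfl, hA⟩

lemma sig_spec : ∃ A : Finset (ZMod n), A.card = sig n h ∧ IsB A h := by
  have hne : {k : ℕ | ∃ A : Finset (ZMod n), A.card = k ∧ IsB A h}.Nonempty :=
    ⟨0, ∅, by simp, fun f g _ _ _ => funext fun x => absurd x.2 (Finset.notMem_empty _)⟩
  exact Nat.sSup_mem hne bdd

lemma sub_fb {G : Type*} [AddCommGroup G] {A : Finset G} (hA : IsB A h) {m : ℕ}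
    (hm : m ≤ A.card) : ∃ a : Fin m → G, FB a h :=
  ⟨fun i => ((A.equivFin.symm (Fin.castLE hm i) : A) : G),
    FB.comp (a := fun x : A => (x : G)) hA (fun i => A.equivFin.symm (Fin.castLE hm i))
      (A.equivFin.symm.injective.comp (Fin.castLE_injective hm))⟩

theorem two_le_sig (hh : 1 ≤ h) : 2 ≤ sig n h ↔ Thr n h := by
  classical
  constructor
  · intro h2
    obtain ⟨A, hA, hB⟩ := sig_spec (n := n) (h := h)
    obtain ⟨a, ha⟩ := sub_fb hB (m := 2) (by omega)
    have e : a = ![a 0, a 1] := by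
      funext i
      fin_cases i <;> rfl
    rw [e] at ha
    have hu := ha.uv
    refine ⟨?_, fun hn ho => hu.lower2 hn ho⟩
    have := hu.lower
    rwa [Nat.card_zmod] at this
  · intro hT
    obtain ⟨a, b, hu⟩ := exists_uv hT
    have hab : a ≠ b := by
      rintro rfl
      have := hu 0 1 (by simp) (by simpa using hh) (by simp)
      omega
    have hfb := hu.fb
    have hB : IsB ({a, b} : Finset (ZMod n)) h := by
      have h3 := hfb.comp (fun x : ({a, b} : Finset (ZMod n)) => if (x : ZMod n) = a then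
        (0 : Fin 2) else 1) (by
          rintro ⟨x, hx⟩ ⟨y, hy⟩ hxy
          rw [Finset.mem_insert, Finset.mem_singleton] at hx hy
          apply Subtype.ext
          simp only
          simp only at hxy
          rcases hx with rfl | rfl <;> rcases hy with rfl | rfl <;> simp_all)
      have e : (fun x : ({a, b} : Finset (ZMod n)) =>
          (![a, b] : Fin 2 → ZMod n) (if (x : ZMod n) = a then (0 : Fin 2) else 1)) =
          fun x : ({a, b} : Finset (ZMod n)) => (x : ZMod n) := by
        funext x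
        obtain ⟨x, hx⟩ := x
        rw [Finset.mem_insert, Finset.mem_singleton] at hx
        by_cases hxa : x = a
        · simp [hxa]
        · rcases hx with rfl | rfl
          · exact absurd rfl hxa
          · simp [hxa]
      rw [e] at h3
      exact h3
    have := le_sig hB
    rwa [Finset.card_pair hab] at this

theorem one_le_sig (hh : 1 ≤ h) : 1 ≤ sig n h ↔ ¬ n ∣ 2 * h := by
  constructor
  · intro h1 hd
    obtain ⟨A, hA, hB⟩ := sig_spec (n := n) (h := h)
    obtain ⟨a, ha⟩ := sub_fb hB (m := 1) (by omega)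
    have h2 := ha (fun _ => (h : ℤ)) (fun _ => -(h : ℤ)) (by simp) (by simp) (by
      simp only [Finset.univ_unique, Fin.default_eq_zero, Finset.sum_singleton]
      have h3 : ((2 * h : ℕ) : ZMod n) = 0 := (ZMod.natCast_eq_zero_iff _ _).mpr hd
      rw [← sub_eq_zero, ← sub_smul, zsmul_eq_mul]
      have e : (((h : ℤ) - -(h : ℤ) : ℤ) : ZMod n) = ((2 * h : ℕ) : ZMod n) := by
        push_cast
        ring
      rw [e, h3, zero_mul])
    have h4 : (h : ℤ) = -(h : ℤ) := congrFun h2 0
    omega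
  · intro hd
    have h1 : FB (fun _ : Fin 1 => (1 : ZMod n)) h := by
      intro f g hf hg hfg
      simp only [Finset.univ_unique, Fin.default_eq_zero, Finset.sum_singleton] at hf hg hfg
      funext i
      obtain rfl : i = 0 := Subsingleton.elim _ _
      by_contra hne
      apply hd
      rw [← sub_eq_zero, ← sub_smul, zsmul_eq_mul, mul_one,
        ZMod.intCast_zmod_eq_zero_iff_dvd] at hfg
      have h2 : f 0 - g 0 = 2 * (h : ℤ) ∨ f 0 - g 0 = -(2 * (h : ℤ)) := by omega
      rcases h2 with h2 | h2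
      · rw [h2] at hfg
        exact_mod_cast hfg
      · rw [h2, dvd_neg] at hfg
        exact_mod_cast hfg
    have hB : IsB ({1} : Finset (ZMod n)) h := by
      have h3 := h1.comp (fun _ : ({1} : Finset (ZMod n)) => (0 : Fin 1)) (by
        rintro ⟨x, hx⟩ ⟨y, hy⟩ _
        rw [Finset.mem_singleton] at hx hy
        apply Subtype.ext
        simp only
        rw [hx, hy])
      have e : (fun _ : ({1} : Finset (ZMod n)) => (1 : ZMod n)) =
          fun x : ({1} : Finset (ZMod n)) => (x : ZMod n) := by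
        funext x
        obtain ⟨x, hx⟩ := x
        rw [Finset.mem_singleton] at hx
        simp only
        rw [hx]
      rw [e] at h3
      exact h3
    have := le_sig hB
    simpa using this

theorem sig_le_two (hn : 3 * n < (h + 1) * (2 * (h + 1) ^ 2 + 1)) : sig n h ≤ 2 := by
  by_contra hcon
  obtain ⟨A, hA, hB⟩ := sig_spec (n := n) (h := h)
  obtain ⟨a, ha⟩ := sub_fb hB (m := 3) (by omega)
  have := triple ha
  rw [Nat.card_zmod] at this
  omega

end Pool.Agent.TH560.SB
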