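import Pool.Agent.TH560.SB.Main

/-!
# `B_h` sets over `ℤ` of size two in cyclic groups
-/

set_option autoImplicit false

namespace Pool.Agent.TH560.SB

/-- the condition on a pair in the coordinates `a + b`, `a - b` -/
def UV {G : Type*} [AddCommGroup G] (a b : G) (h : ℕ) : Prop :=
  ∀ u v : ℤ, u.natAbs ≤ h → v.natAbs ≤ h → u • (a + b) + v • (a - b) = 0 → u = 0 ∧ v = 0

lemma FB.uv {G : Type*} [AddCommGroup G] {a b : G} {h : ℕ} (H : FB ![a, b] h) : UV a b h := by
  intro u v hu hv h0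
  have h1 : (![u + v, u - v] : Fin 2 → ℤ) = 0 := by
    apply H.even (by simp)
    · simp only [Fin.sum_univ_two, Matrix.cons_val_zero, Matrix.cons_val_one]
      omega
    · simp only [Fin.sum_univ_two, Matrix.cons_val_zero, Matrix.cons_val_one]
      omega
    · simp only [Fin.sum_univ_two, Matrix.cons_val_zero, Matrix.cons_val_one]
      rw [← h0]
      module
  have h2 := congrFun h1 0
  have h3 := congrFun h1 1
  simp at h2 h3
  omega

lemma UV.fb {G : Type*} [AddCommGroup G] {a b : G} {h : ℕ} (H : UV a b h) : FB ![a, b] h := by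
  intro f g hf hg hfg
  simp only [Fin.sum_univ_two, Matrix.cons_val_zero, Matrix.cons_val_one] at hf hg hfg
  obtain ⟨u, v, hu, hv, hx, hy⟩ : ∃ u v : ℤ, u.natAbs ≤ h ∧ v.natAbs ≤ h ∧
      f 0 - g 0 = u + v ∧ f 1 - g 1 = u - v :=
    ⟨(f 0 - g 0 + (f 1 - g 1)) / 2, (f 0 - g 0 - (f 1 - g 1)) / 2, by omega, by omega,
      by omega, by omega⟩
  have h1 := H u v hu hv (by
    have e : u • (a + b) + v • (a - b) = (u + v) • a + (u - v) • b := by module
    rw [e, ← hx, ← hy, sub_smul, sub_smul]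
    have e2 : f 0 • a - g 0 • a + (f 1 • b - g 1 • b) =
        (f 0 • a + f 1 • b) - (g 0 • a + g 1 • b) := by abel
    rw [e2, hfg, sub_self])
  funext i
  fin_cases i
  · simp only [Fin.zero_eta]
    omega
  · simp only [Fin.mk_one]
    omega

/-- counting -/
lemma UV.lower {G : Type*} [AddCommGroup G] [Finite G] {a b : G} {h : ℕ} (H : UV a b h) :
    (h + 1) ^ 2 ≤ Nat.card G := by
  have h1 : Nat.card (Fin (h + 1) × Fin (h + 1)) = (h + 1) ^ 2 := by
    rw [Nat.card_eq_fintype_card, Fintype.card_prod, Fintype.card_fin]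
    ring
  rw [← h1]
  apply Nat.card_le_card_of_injective
    (fun p : Fin (h + 1) × Fin (h + 1) => (p.1 : ℤ) • (a + b) + (p.2 : ℤ) • (a - b))
  rintro ⟨u, v⟩ ⟨u', v'⟩ huv
  simp only at huv
  have h2 := H ((u : ℤ) - u') ((v : ℤ) - v') (by omega) (by omega) (by
    rw [sub_smul, sub_smul]
    have e : ((u : ℕ) : ℤ) • (a + b) - ((u' : ℕ) : ℤ) • (a + b) +
        (((v : ℕ) : ℤ) • (a - b) - ((v' : ℕ) : ℤ) • (a - b)) =
        ((((u : ℕ) : ℤ) • (a + b)) + ((v : ℕ) : ℤ) • (a - b)) -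
        (((u' : ℕ) : ℤ) • (a + b) + ((v' : ℕ) : ℤ) • (a - b)) := by abel
    rw [e, huv, sub_self])
  ext
  · simp only
    omega
  · simp only
    omega

/-- elements of order two in a cyclic group -/
lemma two_tors {n : ℕ} [NeZero n] {x y : ZMod n} (hx : x ≠ 0) (hy : y ≠ 0) (h2x : 2 * x = 0)
    (h2y : 2 * y = 0) : x = y := by
  have key : ∀ z : ZMod n, z ≠ 0 → 2 * z = 0 → 2 * z.val = n := by
    intro z hz h2
    have h3 : ((2 * z.val : ℕ) : ZMod n) = 0 := by
      push_cast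
      rw [ZMod.natCast_zmod_val, h2]
    rw [ZMod.natCast_eq_zero_iff] at h3
    obtain ⟨c, hc⟩ := h3
    have h4 := ZMod.val_lt z
    have h5 : z.val ≠ 0 := by
      rwa [Ne, ZMod.val_eq_zero]
    have h6 : c = 1 := by
      rcases Nat.lt_or_ge c 1 with h | h
      · interval_cases c
        omega
      · rcases Nat.lt_or_ge 1 c with h' | h'
        · exfalso
          have : n * 2 ≤ n * c := Nat.mul_le_mul_left n h'
          omega
        · omega
    rw [hc, h6, mul_one]
  apply ZMod.val_injective n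
  have h1 := key x hx h2x
  have h2 := key y hy h2y
  omega

/-- a pigeonhole in `[0, p) × [0, q)` -/
lemma pigeon {n : ℕ} [NeZero n] (A B : ZMod n) (p q : ℕ) (hpq : n < p * q) :
    ∃ u v : ℤ, u.natAbs < p ∧ v.natAbs < q ∧ ¬ (u = 0 ∧ v = 0) ∧ u • A + v • B = 0 := by
  have h1 : ¬ Function.Injective (fun x : Fin p × Fin q => (x.1 : ℤ) • A + (x.2 : ℤ) • B) := by
    intro hinj
    have h2 := Nat.card_le_card_of_injective _ hinj
    rw [Nat.card_eq_fintype_card, Fintype.card_prod, Fintype.card_fin, Fintype.card_fin,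
      Nat.card_zmod] at h2
    omega
  unfold Function.Injective at h1
  push Not at h1
  obtain ⟨⟨u, v⟩, ⟨u', v'⟩, h2, h3⟩ := h1
  simp only at h2
  refine ⟨(u : ℤ) - u', (v : ℤ) - v', by omega, by omega, ?_, ?_⟩
  · rintro ⟨h4, h5⟩
    apply h3
    ext
    · simp only
      omega
    · simp only
      omega
  · rw [sub_smul, sub_smul]
    have e : ((u : ℕ) : ℤ) • A - ((u' : ℕ) : ℤ) • A +
        (((v : ℕ) : ℤ) • B - ((v' : ℕ) : ℤ) • B) =
        ((((u : ℕ) : ℤ) • A) + ((v : ℕ) : ℤ) • B) -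
        (((u' : ℕ) : ℤ) • A + ((v' : ℕ) : ℤ) • B) := by abel
    rw [e, h2, sub_self]

/-- the parity homomorphism counts half of the elements -/
lemma even_case {n : ℕ} [NeZero n] (hn : 2 ∣ n) {a b : ZMod n} {h : ℕ} (H : UV a b h)
    (hA : ZMod.castHom hn (ZMod 2) (a + b) = 0) (hB : ZMod.castHom hn (ZMod 2) (a - b) = 0) :
    2 * (h + 1) ^ 2 ≤ n := by
  have hev : ∀ z : ZMod n, ZMod.castHom hn (ZMod 2) z = 0 → z.val % 2 = 0 := by
    intro z hz
    rw [ZMod.castHom_apply, ← ZMod.natCast_val, ZMod.natCast_eq_zero_iff] at hz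
    omega
  have h0 : ∀ u v : ℤ, ZMod.castHom hn (ZMod 2) (u • (a + b) + v • (a - b)) = 0 := by
    intro u v
    rw [map_add, map_zsmul, map_zsmul, hA, hB]
    simp
  have hlt : ∀ z : ZMod n, z.val / 2 < n / 2 := by
    intro z
    have := ZMod.val_lt z
    omega
  have h1 : Nat.card (Fin (h + 1) × Fin (h + 1)) ≤ Nat.card (Fin (n / 2)) := by
    apply Nat.card_le_card_of_injective
      (fun p : Fin (h + 1) × Fin (h + 1) =>
        (⟨((p.1 : ℤ) • (a + b) + (p.2 : ℤ) • (a - b)).val / 2, hlt _⟩ : Fin (n / 2)))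
    rintro ⟨u, v⟩ ⟨u', v'⟩ huv
    simp only [Fin.mk.injEq] at huv
    have e1 := hev _ (h0 (u : ℤ) (v : ℤ))
    have e2 := hev _ (h0 (u' : ℤ) (v' : ℤ))
    have e3 : (((u : ℕ) : ℤ) • (a + b) + ((v : ℕ) : ℤ) • (a - b)) =
        (((u' : ℕ) : ℤ) • (a + b) + ((v' : ℕ) : ℤ) • (a - b)) := by
      apply ZMod.val_injective n
      omega
    have h2 := H ((u : ℤ) - u') ((v : ℤ) - v') (by omega) (by omega) (by
      rw [sub_smul, sub_smul]
      have e : ((u : ℕ) : ℤ) • (a + b) - ((u' : ℕ) : ℤ) • (a + b) +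
          (((v : ℕ) : ℤ) • (a - b) - ((v' : ℕ) : ℤ) • (a - b)) =
          ((((u : ℕ) : ℤ) • (a + b)) + ((v : ℕ) : ℤ) • (a - b)) -
          (((u' : ℕ) : ℤ) • (a + b) + ((v' : ℕ) : ℤ) • (a - b)) := by abel
      rw [e, e3, sub_self])
    ext
    · simp only
      omega
    · simp only
      omega
  rw [Nat.card_eq_fintype_card, Nat.card_eq_fintype_card, Fintype.card_prod, Fintype.card_fin,
    Fintype.card_fin] at h1
  have h3 : (h + 1) ^ 2 = (h + 1) * (h + 1) := by ring
  omega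

/-- the second threshold -/
lemma UV.lower2 {n : ℕ} [NeZero n] (hn : Even n) {a b : ZMod n} {h : ℕ} (hh : Odd h)
    (H : UV a b h) : (h + 1) * (h + 2) ≤ n := by
  by_contra hcon
  push Not at hcon
  have hn2 : 2 ∣ n := even_iff_two_dvd.mp hn
  obtain ⟨t, ht⟩ := hh
  set χ := ZMod.castHom hn2 (ZMod 2) with hχ
  have hAB : χ (a - b) = χ (a + b) := by
    rw [map_sub, map_add, CharTwo.sub_eq_add]
  by_cases hA : χ (a + b) = 0
  · have h1 := even_case hn2 H hA (hAB.trans hA)
    nlinarith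
  have hA1 : χ (a + b) = 1 := by
    have : ∀ z : ZMod 2, z ≠ 0 → z = 1 := by decide
    exact this _ hA
  have hpar : ∀ u v : ℤ, u • (a + b) + v • (a - b) = 0 → (u + v) % 2 = 0 := by
    intro u v h0
    have h1 := congrArg χ h0
    rw [map_add, map_zsmul, map_zsmul, hAB, hA1, map_zero] at h1
    have h2 : ((u + v : ℤ) : ZMod 2) = 0 := by
      push_cast
      simpa using h1
    rw [ZMod.intCast_zmod_eq_zero_iff_dvd] at h2
    omega
  -- the two short vectors
  obtain ⟨q, hq, hq0⟩ : ∃ q : ℤ, q.natAbs ≤ h ∧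
      ((h : ℤ) + 1) • (a + b) + q • (a - b) = 0 := by
    obtain ⟨u, v, hu, hv, hne, h0⟩ := pigeon (a + b) (a - b) (h + 2) (h + 1) (by
      rw [mul_comm]; exact hcon)
    by_cases hu' : u.natAbs ≤ h
    · exact absurd (H u v hu' (by omega) h0) hne
    · rcases le_total 0 u with h1 | h1
      · refine ⟨v, by omega, ?_⟩
        have : u = (h : ℤ) + 1 := by omega
        rw [← this]
        exact h0
      · refine ⟨-v, by omega, ?_⟩
        have : -u = (h : ℤ) + 1 := by omega
        rw [← this, neg_smul, neg_smul, ← neg_add, h0, neg_zero]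
  obtain ⟨x, hx, hx0⟩ : ∃ x : ℤ, x.natAbs ≤ h ∧
      x • (a + b) + ((h : ℤ) + 1) • (a - b) = 0 := by
    obtain ⟨u, v, hu, hv, hne, h0⟩ := pigeon (a + b) (a - b) (h + 1) (h + 2) hcon
    by_cases hv' : v.natAbs ≤ h
    · exact absurd (H u v (by omega) hv' h0) hne
    · rcases le_total 0 v with h1 | h1
      · refine ⟨u, by omega, ?_⟩
        have : v = (h : ℤ) + 1 := by omega
        rw [← this]
        exact h0
      · refine ⟨-u, by omega, ?_⟩
        have : -v = (h : ℤ) + 1 := by omega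
        rw [← this, neg_smul, neg_smul, ← neg_add, h0, neg_zero]
  have hq2 := hpar _ _ hq0
  have hx2 := hpar _ _ hx0
  obtain ⟨q', hq'⟩ : ∃ q' : ℤ, q = 2 * q' := ⟨q / 2, by omega⟩
  obtain ⟨x', hx'⟩ : ∃ x' : ℤ, x = 2 * x' := ⟨x / 2, by omega⟩
  have hs : ((h : ℤ) + 1) = 2 * ((t : ℤ) + 1) := by omega
  set s' : ℤ := (t : ℤ) + 1 with hs'
  have hα : 2 * (s' • (a + b) + q' • (a - b)) = 0 := by
    rw [hs, hq'] at hq0
    rw [← hq0]
    simp only [zsmul_eq_mul]
    push_cast
    ring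
  have hβ : 2 * (x' • (a + b) + s' • (a - b)) = 0 := by
    rw [hs, hx'] at hx0
    rw [← hx0]
    simp only [zsmul_eq_mul]
    push_cast
    ring
  have hα0 : s' • (a + b) + q' • (a - b) ≠ 0 := by
    intro h0
    have := H s' q' (by omega) (by omega) h0
    omega
  have hβ0 : x' • (a + b) + s' • (a - b) ≠ 0 := by
    intro h0
    have := H x' s' (by omega) (by omega) h0
    omega
  have heq := two_tors hα0 hβ0 hα hβ
  have h5 := H (s' - x') (q' - s') (by omega) (by omega) (by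
    rw [sub_smul, sub_smul]
    have e : s' • (a + b) - x' • (a + b) + (q' • (a - b) - s' • (a - b)) =
        (s' • (a + b) + q' • (a - b)) - (x' • (a + b) + s' • (a - b)) := by abel
    rw [e, heq, sub_self])
  omega

end Pool.Agent.TH560.SB
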